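import Mathlib
import Pool.Agent.V5helper50.RS.Stm2

/-!
# JOB THR of project RS (helper50)
-/

set_option autoImplicit false

open Finset MeasureTheory ProbabilityTheory

namespace Pool.Agent.V5helper69.RS

open Pool.Agent.V5helper50.RS

theorem exists_sol {k Q : ℕ} {t : ℕ → ℕ} {d u : ℕ} (h : N k Q t d u ≠ 0) :
    ∃ x : Fin d → ZMod Q, ∑ i, x i ^ k = (u : ZMod Q) := by
  unfold N at h
  obtain ⟨z, hz⟩ := Set.nonempty_of_ncard_ne_zero h
  refine ⟨fun i => (((z i).natAbs : ℕ) : ZMod Q), ?_⟩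
  have hz' : ∑ i, a k Q t (z i).natAbs = u := hz
  rw [← hz', Nat.cast_sum]
  refine Finset.sum_congr rfl fun i _ => ?_
  unfold a
  simp

theorem t_THR : S_THR := by
  intro hMOD k d hk hd hMain
  obtain ⟨c, C, hc, hcC, hM⟩ := hMain
  have hC : 0 < C := lt_of_lt_of_le hc hcC
  constructor
  · rintro ⟨c', C', hc', hcC', hU⟩
    have hC' : 0 < C' := lt_of_lt_of_le hc' hcC'
    refine ⟨c' / C, C' / c, div_pos hc' hC, ?_, ?_⟩
    · rw [div_le_div_iff₀ hC hc]
      exact mul_le_mul hcC' hcC hc.le hC'.le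
    · intro q hq n hn
      have : NeZero q := ⟨by omega⟩
      obtain ⟨Ω, mΩ, μ, θ, hmod⟩ := hMOD k
      have := hmod.prob
      obtain ⟨ω, ⟨u₁, h1⟩, u₂, h2⟩ := ((hM q hq Ω μ θ hmod).and (hU q hq Ω μ θ hmod)).exists
      set u : ℕ := n.val + q * (max u₁ u₂ + 1) with hu
      have hq' : max u₁ u₂ + 1 ≤ q * (max u₁ u₂ + 1) := Nat.le_mul_of_pos_left _ hq
      have hu1 : u₁ ≤ u := by
        have := le_max_left u₁ u₂
        omega
      have hu2 : u₂ ≤ u := by
        have := le_max_right u₁ u₂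
        omega
      have hupos : 0 < u := by omega
      have hun : (u : ZMod q) = n := by
        rw [hu]
        push_cast
        rw [ZMod.natCast_zmod_val, ZMod.natCast_self, zero_mul, add_zero]
      have hP : 0 < (u : ℝ) ^ ((d : ℝ) / k - 1) := Real.rpow_pos_of_pos (by exact_mod_cast hupos) _
      have hQ : 0 < (q : ℝ) ^ (d - 1) := pow_pos (by exact_mod_cast hq) _
      have hcard : 0 < (Nat.card {x : Fin d → ZMod q // ∑ i, x i ^ k = n} : ℝ) := by
        obtain ⟨x, hx⟩ := hn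
        have : Nonempty {x : Fin d → ZMod q // ∑ i, x i ^ k = n} := ⟨⟨x, hx⟩⟩
        exact_mod_cast Nat.card_pos
      have hrho : rho k q d u = (Nat.card {x : Fin d → ZMod q // ∑ i, x i ^ k = n} : ℝ) /
          (q : ℝ) ^ (d - 1) := by
        unfold rho
        rw [hun]
      have hrpos : 0 < rho k q d u := by
        rw [hrho]; exact div_pos hcard hQ
      obtain ⟨h3, h4⟩ := h1 u hu1
      have hN : N k q (fun x => θ x ω) d u ≠ 0 := by
        intro h0
        rw [h0] at h3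
        have : 0 < c * rho k q d u * (u : ℝ) ^ ((d : ℝ) / k - 1) := by positivity
        simp only [Nat.cast_zero] at h3
        linarith
      obtain ⟨h5, h6⟩ := h2 u hu2 hN
      have h7 : c' ≤ C * rho k q d u := by
        have : c' * (u : ℝ) ^ ((d : ℝ) / k - 1) ≤ (C * rho k q d u) * (u : ℝ) ^ ((d : ℝ) / k - 1) :=
          h5.trans h4
        exact le_of_mul_le_mul_right this hP
      have h8 : c * rho k q d u ≤ C' := by
        have : (c * rho k q d u) * (u : ℝ) ^ ((d : ℝ) / k - 1) ≤ C' * (u : ℝ) ^ ((d : ℝ) / k - 1) :=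
          h3.trans h6
        exact le_of_mul_le_mul_right this hP
      rw [hrho] at h7 h8
      constructor
      · rw [div_mul_eq_mul_div, div_le_iff₀ hC]
        rw [mul_div_assoc', le_div_iff₀ hQ] at h7
        linarith
      · rw [div_mul_eq_mul_div, le_div_iff₀ hc]
        rw [mul_div_assoc', div_le_iff₀ hQ] at h8
        linarith
  · rintro ⟨c₁, C₁, hc₁, hcC₁, hO⟩
    have hC₁ : 0 < C₁ := lt_of_lt_of_le hc₁ hcC₁
    refine ⟨c * c₁, C * C₁, mul_pos hc hc₁, mul_le_mul hcC hcC₁ hc₁.le hC.le, ?_⟩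
    intro Q hQ Ω _ μ θ hmod
    filter_upwards [hM Q hQ Ω μ θ hmod] with ω hω
    obtain ⟨u₀, hu₀⟩ := hω
    refine ⟨u₀, fun u hu hN => ?_⟩
    obtain ⟨h1, h2⟩ := hu₀ u hu
    obtain ⟨h3, h4⟩ := hO Q hQ (u : ZMod Q) (exists_sol hN)
    have hQ' : 0 < (Q : ℝ) ^ (d - 1) := pow_pos (by exact_mod_cast hQ) _
    have hP : 0 ≤ (u : ℝ) ^ ((d : ℝ) / k - 1) := Real.rpow_nonneg (Nat.cast_nonneg _) _
    have h5 : c₁ ≤ rho k Q d u := by
      unfold rho
      rw [le_div_iff₀ hQ']
      exact h3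
    have h6 : rho k Q d u ≤ C₁ := by
      unfold rho
      rw [div_le_iff₀ hQ']
      exact h4
    constructor
    · refine le_trans ?_ h1
      exact mul_le_mul_of_nonneg_right (mul_le_mul_of_nonneg_left h5 hc.le) hP
    · refine le_trans h2 ?_
      exact mul_le_mul_of_nonneg_right (mul_le_mul_of_nonneg_left h6 hC.le) hP

end Pool.Agent.V5helper69.RS
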